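import Pool.Agent.R828.CoConsL

/-!
# MP_a60c23_gt: a co-consonant space whose lower powerspace is not co-consonant

The space is `L(P_S(M), P_S(S))`, where `M` and `S` are the metric fan and the sequential fan, and
`L(Z₁, Z₂)` consists of an isolated point and the lexicographic sum of `Z₁` and `Z₂` (open sets
meeting `Z₂` contain `Z₁`).
-/

namespace Pool.Agent.Results.MP_a60c23_gt.LowerTwoFans

open Set TopologicalSpace Topology
open Pool.Agent.R828.CC Pool.Agent.Helper800.Cons
open Pool.Agent.Helper800.ConsL (L up lo isOpen_up isOpen_lo isOpen_L continuous_l continuous_r)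

universe u

/-- The points of the lower powerspace: all closed subsets of `X` (the empty set included). -/
def PH (X : Type u) [TopologicalSpace X] : Type u := {C : Set X // IsClosed C}

/-- `◇U`: the closed sets that meet `U`. -/
def dia {X : Type u} [TopologicalSpace X] (U : Set X) : Set (PH X) := {C | (C.1 ∩ U).Nonempty}

/-- The topology of the lower powerspace, generated by the sets `◇U`, `U` open. -/
instance (X : Type u) [TopologicalSpace X] : TopologicalSpace (PH X) :=
  TopologicalSpace.generateFrom {S | ∃ U : Set X, IsOpen U ∧ S = dia U}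

theorem isOpen_dia {X : Type u} [TopologicalSpace X] {U : Set X} (hU : IsOpen U) :
    IsOpen (dia U) := TopologicalSpace.isOpen_generateFrom_of_mem ⟨U, hU, rfl⟩

/-- The closure of a set as a point of the lower powerspace. -/
def clo {X : Type u} [TopologicalSpace X] (A : Set X) : PH X := ⟨closure A, isClosed_closure⟩

theorem clo_mem_dia {X : Type u} [TopologicalSpace X] {A U : Set X} (hU : IsOpen U) :
    clo A ∈ dia U ↔ (A ∩ U).Nonempty :=
  closure_inter_open_nonempty_iff hU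

variable {Y1 Y2 : Type} [TopologicalSpace Y1] [TopologicalSpace Y2]

/-- The map from the sum into the hyperspace. -/
def j : Y1 ⊕ Y2 → PH (L (PS Y1) (PS Y2)) :=
  Sum.elim (fun y => clo {L.l (eta y)}) (fun z => clo {L.a, L.r (eta z)})

theorem j_inl {U : Set (L (PS Y1) (PS Y2))} (hU : IsOpen U) (y : Y1) :
    (j (Sum.inl y) : PH (L (PS Y1) (PS Y2))) ∈ dia U ↔ L.l (eta y) ∈ U := by
  show clo {L.l (eta y)} ∈ dia U ↔ _
  rw [clo_mem_dia hU, Set.singleton_inter_nonempty]

theorem j_inr {U : Set (L (PS Y1) (PS Y2))} (hU : IsOpen U) (z : Y2) :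
    (j (Sum.inr z) : PH (L (PS Y1) (PS Y2))) ∈ dia U ↔ (L.a ∈ U ∨ L.r (eta z) ∈ U) := by
  show clo {L.a, L.r (eta z)} ∈ dia U ↔ _
  rw [clo_mem_dia hU]
  constructor
  · rintro ⟨x, (rfl | hx), hxU⟩
    · exact Or.inl hxU
    · rw [Set.mem_singleton_iff] at hx
      subst hx
      exact Or.inr hxU
  · rintro (h | h)
    · exact ⟨_, Or.inl rfl, h⟩
    · exact ⟨_, Or.inr rfl, h⟩

theorem continuous_j : Continuous (j : Y1 ⊕ Y2 → PH (L (PS Y1) (PS Y2))) := by
  apply continuous_generateFrom_iff.2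
  rintro _ ⟨U, hU, rfl⟩
  rw [isOpen_sum_iff]
  constructor
  · have : (Sum.inl ⁻¹' (j ⁻¹' (dia U : Set (PH (L (PS Y1) (PS Y2))))) : Set Y1) =
        eta ⁻¹' (L.l ⁻¹' U) := by
      ext y
      exact j_inl hU y
    rw [this]
    exact hU.1.preimage continuous_eta
  · have : (Sum.inr ⁻¹' (j ⁻¹' (dia U : Set (PH (L (PS Y1) (PS Y2))))) : Set Y2) =
        {_z | L.a ∈ U} ∪ eta ⁻¹' (L.r ⁻¹' U) := by
      ext z
      exact j_inr hU z
    rw [this]
    exact isOpen_const.union (hU.2.1.preimage continuous_eta)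

/-- The open set of the hyperspace that corresponds to a pair of open sets. -/
def big (U : Set (Y1 ⊕ Y2)) : Set (PH (L (PS Y1) (PS Y2))) :=
  dia (up False (box (Sum.inl ⁻¹' U))) ∪
    (dia (up True ∅) ∩ dia (lo False (box (Sum.inr ⁻¹' U))))

theorem isOpen_big {U : Set (Y1 ⊕ Y2)} (hU : IsOpen U) : IsOpen (big U) := by
  obtain ⟨h1, h2⟩ := isOpen_sum_iff.1 hU
  exact (isOpen_dia (isOpen_up (isOpen_box h1))).union
    ((isOpen_dia (isOpen_up isOpen_empty)).inter (isOpen_dia (isOpen_lo (isOpen_box h2))))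

theorem j_big {U : Set (Y1 ⊕ Y2)} (hU : IsOpen U) (x : Y1 ⊕ Y2) :
    (j x : PH (L (PS Y1) (PS Y2))) ∈ big U ↔ x ∈ U := by
  obtain ⟨hU1, hU2⟩ := isOpen_sum_iff.1 hU
  rcases x with y | z
  · constructor
    · rintro (h | ⟨h, -⟩)
      · exact (eta_mem_box hU1).1 ((j_inl (isOpen_up (isOpen_box hU1)) y).1 h)
      · exact ((j_inl (isOpen_up isOpen_empty) y).1 h).elim
    · intro h
      exact Or.inl ((j_inl (isOpen_up (isOpen_box hU1)) y).2 ((eta_mem_box hU1).2 h))
  · constructor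
    · rintro (h | ⟨-, h⟩)
      · rcases (j_inr (isOpen_up (isOpen_box hU1)) z).1 h with h | h
        · exact h.elim
        · exact h.elim
      · rcases (j_inr (isOpen_lo (isOpen_box hU2)) z).1 h with h | h
        · exact h.elim
        · exact (eta_mem_box hU2).1 h
    · intro h
      exact Or.inr ⟨(j_inr (isOpen_up isOpen_empty) z).2 (Or.inl trivial),
        (j_inr (isOpen_lo (isOpen_box hU2)) z).2 (Or.inr ((eta_mem_box hU2).2 h))⟩

/-- Each closed set in `big U` is kept in `big V` by a compact condition on `V`. -/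
theorem exists_compact {U : Set (Y1 ⊕ Y2)} {C : PH (L (PS Y1) (PS Y2))} (hC : C ∈ big U) :
    ∃ K : Set (Y1 ⊕ Y2), IsCompact K ∧ K ⊆ U ∧ ∀ V : Set (Y1 ⊕ Y2), K ⊆ V → C ∈ big V := by
  rcases hC with ⟨x, hxC, hx⟩ | ⟨ha, x, hxC, hx⟩
  · cases x with
    | a => exact hx.elim
    | l A =>
      refine ⟨Sum.inl '' A.1, A.2.2.1.image continuous_inl, ?_, ?_⟩
      · rintro _ ⟨y, hy, rfl⟩
        exact hx hy
      · intro V hV
        exact Or.inl ⟨L.l A, hxC, fun y hy => hV ⟨y, hy, rfl⟩⟩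
    | r z => exact hx.elim
  · cases x with
    | a => exact hx.elim
    | l A =>
      exact ⟨∅, isCompact_empty, Set.empty_subset _, fun V _ => Or.inr ⟨ha, L.l A, hxC, trivial⟩⟩
    | r A =>
      refine ⟨Sum.inr '' A.1, A.2.2.1.image continuous_inr, ?_, ?_⟩
      · rintro _ ⟨y, hy, rfl⟩
        exact hx hy
      · intro V hV
        exact Or.inr ⟨ha, L.r A, hxC, fun y hy => hV ⟨y, hy, rfl⟩⟩

/-- **If `P_H(L(P_S(Y₁), P_S(Y₂)))` is co-consonant then `Y₁ ⊕ Y₂` is consonant.** -/
theorem consonant_sum_of_PH (h : CoConsonant (PH (L (PS Y1) (PS Y2)))) :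
    Consonant (Y1 ⊕ Y2) := by
  intro 𝓕 h𝓕 U hU
  obtain ⟨F, hF, hFU, hFV⟩ := coConsonant_iff.1 h _ (h𝓕.push j continuous_j)
    ⟨big (U : Set (Y1 ⊕ Y2)), isOpen_big U.isOpen⟩
    (h𝓕.1 U hU _ fun x hx => (j_big U.isOpen x).2 hx)
  choose! K hK hKU hKV using fun C (hC : C ∈ F) => exists_compact (hFU hC)
  refine ⟨⋃ C ∈ F, K C, hF.isCompact_biUnion hK, Set.iUnion₂_subset hKU, ?_⟩
  intro V hV
  have h3 := hFV ⟨big (V : Set (Y1 ⊕ Y2)), isOpen_big V.isOpen⟩
    fun C hC => hKV C hC V ((Set.subset_biUnion_of_mem hC).trans hV)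
  exact h𝓕.1 _ h3 V fun x hx => (j_big V.isOpen x).1 hx

/-- `CoConsonant` (the upper topology and the Scott topology of the lattice of open sets coincide)
is defined in `Pool/Agent/R828/CoCons.lean`. -/
theorem result : ∃ (X : Type) (_ : TopologicalSpace X), T0Space X ∧ CoConsonant X ∧
    ¬ CoConsonant (PH X) := by
  refine ⟨L (PS (Fan NM)) (PS (Fan NS)), inferInstance, ?_, ?_, ?_⟩
  · have h1 : T0Space (PS (Fan NM)) := t0_PS
    have h2 : T0Space (PS (Fan NS)) := t0_PS
    exact Pool.Agent.R828.CC.t0_L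
  · exact coConsonant_L (coConsonant_PS_of_multiCons multiCons_M)
      (coConsonant_PS_of_multiCons multiCons_S)
  · intro h
    exact not_cons_sum (cons_of_consonant (consonant_sum_of_PH h))

end Pool.Agent.Results.MP_a60c23_gt.LowerTwoFans
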